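import Mathlib
import Pool.Agent.Run7.h994.MC.Stm
import Pool.Agent.Run7.h462.BPG.Es

/-!
Project MC (helper994), piece ESQ: exponential sums over the primes of a residue class modulo `q`, phases
`s h n^(1/d)`, on average over `h`. The text follows helper462's `Run7/h462/BPG/Es.lean`; the type I sums are treated
with additive characters modulo `q`, the type II sums with residue classes of the first variable.
-/

set_option autoImplicit false
set_option linter.all false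

namespace Run7.h834.MC

open Finset Filter Topology
open Pool.Agent.H469R2.NK (e)
open Run7.h757.BP (S_VAU)
open Run7.h462.BPD (EE)
open Run7.h462.BPG (lam S_BIL)
open Run7.h994.BPD (log_absorb6)
open Run7.h994.BP (sqrt_sqrt_facts sum_inv_le)
open Run7.h994.MC (S_TIA S_ESQ)

lemma e_nat_mul (x : ℝ) (n : ℕ) : e (n * x) = e x ^ n := by
  induction n with
  | zero => simp [Pool.Agent.H469R2.NK.e_zero]
  | succ n ih =>
    rw [pow_succ, ← ih, ← Pool.Agent.H469R2.NK.e_add]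
    congr 1
    push_cast
    ring

lemma e_int (n : ℤ) : e (n : ℝ) = 1 := by
  unfold Pool.Agent.H469R2.NK.e
  rw [Complex.exp_eq_one_iff]
  exact ⟨n, by push_cast; ring⟩

lemma e_eq_one_iff (x : ℝ) : e x = 1 ↔ ∃ n : ℤ, x = n := by
  constructor
  · intro h
    unfold Pool.Agent.H469R2.NK.e at h
    rw [Complex.exp_eq_one_iff] at h
    obtain ⟨n, hn⟩ := h
    refine ⟨n, ?_⟩
    have h2 : ((2 * Real.pi * x : ℝ) : ℂ) * Complex.I = ((2 * Real.pi * n : ℝ) : ℂ) * Complex.I := by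
      rw [hn]; push_cast; ring
    have h3 := mul_right_cancel₀ Complex.I_ne_zero h2
    have h4 : 2 * Real.pi * x = 2 * Real.pi * n := by exact_mod_cast h3
    exact mul_left_cancel₀ (by positivity) h4
  · rintro ⟨n, rfl⟩
    exact e_int n

/-- the indicator of a residue class by additive characters -/
lemma ind_eq (q r n : ℕ) (hq : 1 ≤ q) :
    (if n ≡ r [MOD q] then (1 : ℂ) else 0) =
      (1 / (q : ℂ)) * ∑ j ∈ range q, e ((j : ℝ) * (((n : ℝ) - r) / q)) := by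
  have hq0 : (q : ℂ) ≠ 0 := by
    have : q ≠ 0 := by omega
    exact_mod_cast this
  have hqr : (q : ℝ) ≠ 0 := by
    have : q ≠ 0 := by omega
    exact_mod_cast this
  have h1 : ∀ j ∈ range q, e ((j : ℝ) * (((n : ℝ) - r) / q)) = e (((n : ℝ) - r) / q) ^ j :=
    fun j _ => e_nat_mul _ j
  rw [Finset.sum_congr rfl h1]
  split_ifs with h
  · have h2 : e (((n : ℝ) - r) / q) = 1 := by
      rw [e_eq_one_iff]
      have h3 : (q : ℤ) ∣ (n : ℤ) - r := (Nat.modEq_iff_dvd.mp h.symm)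
      obtain ⟨k, hk⟩ := h3
      refine ⟨k, ?_⟩
      have : ((n : ℝ) - r) = q * k := by exact_mod_cast hk
      rw [this]
      field_simp
    rw [h2]
    simp only [one_pow, Finset.sum_const, Finset.card_range, nsmul_eq_mul, mul_one]
    field_simp
  · have h2 : e (((n : ℝ) - r) / q) ≠ 1 := by
      intro h3
      rw [e_eq_one_iff] at h3
      obtain ⟨k, hk⟩ := h3
      apply h
      have h4 : ((n : ℝ) - r) = q * k := by
        rw [div_eq_iff hqr] at hk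
        rw [hk]; ring
      have h5 : (n : ℤ) - r = q * k := by exact_mod_cast h4
      exact (Nat.modEq_iff_dvd.mpr ⟨k, h5⟩).symm
    have h3 : e (((n : ℝ) - r) / q) ^ q = 1 := by
      rw [← e_nat_mul, mul_div_cancel₀ _ hqr]
      have : ((n : ℝ) - r) = (((n : ℤ) - (r : ℤ) : ℤ) : ℝ) := by push_cast; ring
      rw [this]
      exact e_int _
    have h4 := geom_sum_eq h2 q
    rw [h4, h3]
    simp

/-- the function of the residue class -/
noncomputable def Eq (s : ℝ) (d H : ℕ) (c : ℕ → ℂ) (q r n : ℕ) : ℂ :=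
  if n ≡ r [MOD q] then EE s d H c n else 0

/-- type I sums with a linear phase -/
lemma typeI_lin {s : ℝ} {d : ℕ} {C₂ : ℝ} (hC₂ : 1 ≤ C₂)
    (hTI : ∀ (X X' h k b : ℕ) (α : ℝ), 1 ≤ X → X' ≤ 2 * X → 1 ≤ h → h ^ 2 ≤ X → 1 ≤ k → k ^ 4 ≤ X →
      b ≤ X' / k →
      ‖∑ l ∈ Ioc (X / k) b, e (s * h * ((k * l : ℕ) : ℝ) ^ (1 / (d : ℝ)) + α * l)‖ ≤
        C₂ * (√(h : ℝ) * (X : ℝ) ^ (1 / 4 : ℝ) + (X : ℝ) ^ (1 - lam d / 2) / (√(h : ℝ) * k)) * (1 + Real.log X))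
    (X X' H m b : ℕ) (c : ℕ → ℂ) (α : ℝ) (hX : 1 ≤ X) (hX' : X' ≤ 2 * X) (hH : 1 ≤ H) (hHX : 4 * H ^ 2 ≤ X)
    (hm : 1 ≤ m) (hmX : m ^ 4 ≤ X) (hb : b ≤ X' / m) (hc : ∀ h, ‖c h‖ ≤ 1) :
    ‖∑ l ∈ Ioc (X / m) b, EE s d H c (m * l) * e (α * l)‖ ≤
      C₂ * (1 + Real.log X) * (2 * (H * √(H : ℝ)) * (X : ℝ) ^ (1 / 4 : ℝ) +
        √(H : ℝ) * (X : ℝ) ^ (1 - lam d / 2) * (1 / m)) := by
  have hXr : (1 : ℝ) ≤ X := by exact_mod_cast hX
  have hlog : 0 ≤ Real.log X := Real.log_nonneg hXr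
  have hH0 : (0 : ℝ) < H := by exact_mod_cast hH
  have hm0 : (0 : ℝ) < m := by exact_mod_cast hm
  have e1 : ∑ l ∈ Ioc (X / m) b, EE s d H c (m * l) * e (α * l) =
      ∑ h ∈ Ico H (2 * H), c h * ∑ l ∈ Ioc (X / m) b,
        e (s * h * ((m * l : ℕ) : ℝ) ^ (1 / (d : ℝ)) + α * l) := by
    unfold Run7.h462.BPD.EE
    simp only [Finset.sum_mul]
    rw [Finset.sum_comm]
    apply Finset.sum_congr rfl
    intro h _
    rw [Finset.mul_sum]
    apply Finset.sum_congr rfl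
    intro l _
    rw [Pool.Agent.H469R2.NK.e_add, mul_assoc]
  rw [e1]
  calc ‖∑ h ∈ Ico H (2 * H), c h * ∑ l ∈ Ioc (X / m) b,
        e (s * h * ((m * l : ℕ) : ℝ) ^ (1 / (d : ℝ)) + α * l)‖
      ≤ ∑ h ∈ Ico H (2 * H), ‖c h * ∑ l ∈ Ioc (X / m) b,
        e (s * h * ((m * l : ℕ) : ℝ) ^ (1 / (d : ℝ)) + α * l)‖ :=
        norm_sum_le _ _
    _ ≤ ∑ h ∈ Ico H (2 * H), C₂ * (2 * √(H : ℝ) * (X : ℝ) ^ (1 / 4 : ℝ) +
          (X : ℝ) ^ (1 - lam d / 2) / (√(H : ℝ) * m)) * (1 + Real.log X) := by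
        apply Finset.sum_le_sum
        intro h hh
        rw [Finset.mem_Ico] at hh
        have h1 : 1 ≤ h := by omega
        have h2 : h ^ 2 ≤ X := by
          calc h ^ 2 ≤ (2 * H) ^ 2 := Nat.pow_le_pow_left (by omega) 2
            _ = 4 * H ^ 2 := by ring
            _ ≤ X := hHX
        have h3 := hTI X X' h m b α hX hX' h1 h2 hm hmX hb
        rw [norm_mul]
        have hHh : √(H : ℝ) ≤ √(h : ℝ) := Real.sqrt_le_sqrt (by exact_mod_cast hh.1)
        have hHs : 0 < √(H : ℝ) := Real.sqrt_pos.mpr hH0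
        have hh2 : √(h : ℝ) ≤ 2 * √(H : ℝ) := by
          rw [Real.sqrt_le_iff]
          refine ⟨by positivity, ?_⟩
          have : (2 * √(H : ℝ)) ^ 2 = 4 * H := by
            rw [mul_pow, Real.sq_sqrt hH0.le]; norm_num
          rw [this]
          have : (h : ℝ) ≤ 2 * H := by exact_mod_cast hh.2.le
          linarith
        calc ‖c h‖ * ‖∑ l ∈ Ioc (X / m) b, e (s * h * ((m * l : ℕ) : ℝ) ^ (1 / (d : ℝ)) + α * l)‖
            ≤ 1 * ‖∑ l ∈ Ioc (X / m) b, e (s * h * ((m * l : ℕ) : ℝ) ^ (1 / (d : ℝ)) + α * l)‖ := by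
              apply mul_le_mul_of_nonneg_right (hc h) (norm_nonneg _)
          _ = ‖∑ l ∈ Ioc (X / m) b, e (s * h * ((m * l : ℕ) : ℝ) ^ (1 / (d : ℝ)) + α * l)‖ := one_mul _
          _ ≤ _ := h3
          _ ≤ _ := by
              gcongr
    _ = C₂ * (1 + Real.log X) * (2 * (H * √(H : ℝ)) * (X : ℝ) ^ (1 / 4 : ℝ) +
        √(H : ℝ) * (X : ℝ) ^ (1 - lam d / 2) * (1 / m)) := by
        rw [Finset.sum_const, Nat.card_Ico, nsmul_eq_mul]
        have hcard : ((2 * H - H : ℕ) : ℝ) = H := by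
          congr 1; omega
        rw [hcard]
        have hs : √(H : ℝ) * √(H : ℝ) = H := Real.mul_self_sqrt hH0.le
        have hs0 : √(H : ℝ) ≠ 0 := (Real.sqrt_pos.mpr hH0).ne'
        have key : (H : ℝ) * ((X : ℝ) ^ (1 - lam d / 2) / (√(H : ℝ) * m)) =
            √(H : ℝ) * (X : ℝ) ^ (1 - lam d / 2) * (1 / m) := by
          have h5 : √(H : ℝ) * (X : ℝ) ^ (1 - lam d / 2) * (1 / m) =
              (√(H : ℝ) * √(H : ℝ)) * ((X : ℝ) ^ (1 - lam d / 2) / (√(H : ℝ) * m)) := by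
            field_simp
          rw [h5, hs]
        calc (H : ℝ) * (C₂ * (2 * √(H : ℝ) * (X : ℝ) ^ (1 / 4 : ℝ) +
              (X : ℝ) ^ (1 - lam d / 2) / (√(H : ℝ) * m)) * (1 + Real.log X)) =
            C₂ * (1 + Real.log X) * (2 * (H * √(H : ℝ)) * (X : ℝ) ^ (1 / 4 : ℝ) +
              (H : ℝ) * ((X : ℝ) ^ (1 - lam d / 2) / (√(H : ℝ) * m))) := by ring
          _ = _ := by rw [key]

/-- type I sums in a residue class -/
lemma typeI_q {s : ℝ} {d : ℕ} (q r m : ℕ) (hq : 1 ≤ q) (H : ℕ) (c : ℕ → ℂ) (A : Finset ℕ) (B : ℝ)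
    (h : ∀ α : ℝ, ‖∑ l ∈ A, EE s d H c (m * l) * e (α * l)‖ ≤ B) :
    ‖∑ l ∈ A, Eq s d H c q r (m * l)‖ ≤ B := by
  have hq0 : (q : ℝ) ≠ 0 := by
    have : q ≠ 0 := by omega
    exact_mod_cast this
  have hq1 : (0 : ℝ) < q := by exact_mod_cast hq
  have h1 : ∑ l ∈ A, Eq s d H c q r (m * l) =
      (1 / (q : ℂ)) * ∑ j ∈ range q, e (-((j : ℝ) * (r / q))) *
        ∑ l ∈ A, EE s d H c (m * l) * e (((j : ℝ) * m / q) * l) := by
    have h2 : ∀ l ∈ A, Eq s d H c q r (m * l) =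
        (1 / (q : ℂ)) * ∑ j ∈ range q, e (-((j : ℝ) * (r / q))) *
          (EE s d H c (m * l) * e (((j : ℝ) * m / q) * l)) := by
      intro l _
      have h3 : Eq s d H c q r (m * l) = (if m * l ≡ r [MOD q] then (1 : ℂ) else 0) * EE s d H c (m * l) := by
        unfold Eq
        split_ifs
        · rw [one_mul]
        · rw [zero_mul]
      rw [h3, ind_eq q r (m * l) hq, mul_assoc, Finset.sum_mul]
      congr 1
      apply Finset.sum_congr rfl
      intro j _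
      have h4 : (j : ℝ) * ((((m * l : ℕ) : ℝ) - r) / q) =
          -((j : ℝ) * (r / q)) + ((j : ℝ) * m / q) * l := by
        push_cast
        field_simp
        ring
      rw [h4, Pool.Agent.H469R2.NK.e_add]
      ring
    rw [Finset.sum_congr rfl h2, ← Finset.mul_sum, Finset.sum_comm]
    congr 1
    apply Finset.sum_congr rfl
    intro j _
    rw [Finset.mul_sum]
  rw [h1, norm_mul]
  have h5 : ‖(1 / (q : ℂ))‖ = 1 / q := by
    rw [norm_div, norm_one, Complex.norm_natCast]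
  rw [h5]
  calc 1 / (q : ℝ) * ‖∑ j ∈ range q, e (-((j : ℝ) * (r / q))) *
        ∑ l ∈ A, EE s d H c (m * l) * e (((j : ℝ) * m / q) * l)‖
      ≤ 1 / (q : ℝ) * ∑ j ∈ range q, B := by
        apply mul_le_mul_of_nonneg_left _ (by positivity)
        refine (norm_sum_le _ _).trans (Finset.sum_le_sum ?_)
        intro j _
        rw [norm_mul, Pool.Agent.H469R2.NK.norm_e, one_mul]
        exact h _
    _ = B := by
        rw [Finset.sum_const, Finset.card_range, nsmul_eq_mul]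
        field_simp

/-- type II sums in a residue class -/
lemma typeII_q {s : ℝ} {d : ℕ} (q r : ℕ) (hq : 1 ≤ q) (X X' H M L : ℕ) (c a b : ℕ → ℂ) (B : ℝ)
    (ha : ∀ m, ‖a m‖ ≤ 1) (hb : ∀ l, ‖b l‖ ≤ 1)
    (h : ∀ a' b' : ℕ → ℂ, (∀ m, ‖a' m‖ ≤ 1) → (∀ l, ‖b' l‖ ≤ 1) →
      ‖∑ m ∈ Ioc M (2 * M), ∑ l ∈ Ioc L (2 * L), a' m * b' l *
        (if X < m * l ∧ m * l ≤ X' then EE s d H c (m * l) else 0)‖ ≤ B) :
    ‖∑ m ∈ Ioc M (2 * M), ∑ l ∈ Ioc L (2 * L), a m * b l *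
        (if X < m * l ∧ m * l ≤ X' then Eq s d H c q r (m * l) else 0)‖ ≤ q * B := by
  have h1 : ∀ m l : ℕ, a m * b l *
        (if X < m * l ∧ m * l ≤ X' then Eq s d H c q r (m * l) else 0) =
      ∑ u ∈ range q, (if m % q = u then a m else 0) * (if u * l ≡ r [MOD q] then b l else 0) *
        (if X < m * l ∧ m * l ≤ X' then EE s d H c (m * l) else 0) := by
    intro m l
    rw [Finset.sum_eq_single (m % q)]
    · rw [if_pos rfl]
      have h2 : (m % q * l ≡ r [MOD q]) ↔ (m * l ≡ r [MOD q]) := by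
        have h3 : m % q * l ≡ m * l [MOD q] := (Nat.mod_modEq m q).mul_right l
        exact ⟨fun h4 => h3.symm.trans h4, fun h4 => h3.trans h4⟩
      unfold Eq
      by_cases h5 : m * l ≡ r [MOD q]
      · rw [if_pos (h2.mpr h5), if_pos h5]
      · rw [if_neg (fun h6 => h5 (h2.mp h6)), if_neg h5]
        simp
    · intro u _ hu
      rw [if_neg (fun h2 => hu h2.symm)]
      simp
    · intro h2
      exfalso
      apply h2
      rw [Finset.mem_range]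
      exact Nat.mod_lt _ (by omega)
  have h2 : ∑ m ∈ Ioc M (2 * M), ∑ l ∈ Ioc L (2 * L), a m * b l *
        (if X < m * l ∧ m * l ≤ X' then Eq s d H c q r (m * l) else 0) =
      ∑ u ∈ range q, ∑ m ∈ Ioc M (2 * M), ∑ l ∈ Ioc L (2 * L),
        (if m % q = u then a m else 0) * (if u * l ≡ r [MOD q] then b l else 0) *
        (if X < m * l ∧ m * l ≤ X' then EE s d H c (m * l) else 0) := by
    simp only [h1]
    calc ∑ m ∈ Ioc M (2 * M), ∑ l ∈ Ioc L (2 * L), ∑ u ∈ range q,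
          (if m % q = u then a m else 0) * (if u * l ≡ r [MOD q] then b l else 0) *
          (if X < m * l ∧ m * l ≤ X' then EE s d H c (m * l) else 0)
        = ∑ m ∈ Ioc M (2 * M), ∑ u ∈ range q, ∑ l ∈ Ioc L (2 * L),
          (if m % q = u then a m else 0) * (if u * l ≡ r [MOD q] then b l else 0) *
          (if X < m * l ∧ m * l ≤ X' then EE s d H c (m * l) else 0) := by
          apply Finset.sum_congr rfl
          intro m _
          rw [Finset.sum_comm]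
      _ = _ := by rw [Finset.sum_comm]
  rw [h2]
  calc ‖∑ u ∈ range q, ∑ m ∈ Ioc M (2 * M), ∑ l ∈ Ioc L (2 * L),
        (if m % q = u then a m else 0) * (if u * l ≡ r [MOD q] then b l else 0) *
        (if X < m * l ∧ m * l ≤ X' then EE s d H c (m * l) else 0)‖
      ≤ ∑ u ∈ range q, B := by
        refine (norm_sum_le _ _).trans (Finset.sum_le_sum ?_)
        intro u _
        apply h
        · intro m
          split_ifs
          · exact ha m
          · simp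
        · intro l
          split_ifs
          · exact hb l
          · simp
    _ = q * B := by rw [Finset.sum_const, Finset.card_range, nsmul_eq_mul]

theorem esq {s : ℝ} {d : ℕ} (hVAU : S_VAU) (hBIL : S_BIL s d) (hTI : S_TIA s d) : S_ESQ s d := by
  intro ε hε
  obtain ⟨C₃, hC₃, hB⟩ := hBIL
  obtain ⟨C₂, hC₂, hT⟩ := hTI
  obtain ⟨C₁, hC₁, hD⟩ := Pool.Agent.Helper112.divisor_bound (ε / 2) (by positivity)
  refine ⟨(20 * C₃ + 9 * C₂) * ((C₁ + 1) * (1 + 12 / ε) ^ 6 * (4 : ℝ) ^ ε), ?_, ?_⟩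
  · have h1 : (1 : ℝ) ≤ (1 + 12 / ε) ^ 6 := one_le_pow₀ (by
      have : 0 < 12 / ε := by positivity
      linarith)
    have h2 : (1 : ℝ) ≤ (4 : ℝ) ^ ε := Real.one_le_rpow (by norm_num) hε.le
    have h3 : (1 : ℝ) ≤ (C₁ + 1) * (1 + 12 / ε) ^ 6 * (4 : ℝ) ^ ε := by
      apply one_le_mul_of_one_le_of_one_le _ h2
      apply one_le_mul_of_one_le_of_one_le _ h1
      linarith
    apply one_le_mul_of_one_le_of_one_le _ h3
    linarith
  intro X X' H q r c hq hH hHX4 hXX' hX' hc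
  have hqr : (1 : ℝ) ≤ q := by exact_mod_cast hq
  have hHX : H ^ 2 ≤ X := by omega
  have hX : 1 ≤ X := le_trans (Nat.one_le_pow 2 H hH) hHX
  have hXr : (1 : ℝ) ≤ X := by exact_mod_cast hX
  have hX0 : (0 : ℝ) < X := by linarith
  have hHr : (1 : ℝ) ≤ H := by exact_mod_cast hH
  have hHXr : (H : ℝ) ^ 2 ≤ X := by exact_mod_cast hHX
  have hlog4 : 0 ≤ Real.log (4 * X) := Real.log_nonneg (by linarith)
  have hlog : 0 ≤ Real.log X := Real.log_nonneg hXr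
  have hlogle : Real.log X ≤ Real.log (4 * X) := Real.log_le_log (by linarith) (by linarith)
  obtain ⟨L, hL⟩ : ∃ L, L = 1 + Real.log (4 * X) := ⟨_, rfl⟩
  obtain ⟨Q, hQ⟩ : ∃ Q, Q = H * (X : ℝ) ^ (3 / 4 : ℝ) + √(H : ℝ) * (X : ℝ) ^ (1 - lam d / 2) := ⟨_, rfl⟩
  obtain ⟨T, hTd⟩ : ∃ T, T = (C₁ + 1) * (2 * (X : ℝ)) ^ (ε / 2) := ⟨_, rfl⟩
  have hL1 : 1 ≤ L := by rw [hL]; linarith
  have hQ0 : 0 ≤ Q := by rw [hQ]; positivity
  have hT1 : 1 ≤ T := by
    rw [hTd]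
    apply one_le_mul_of_one_le_of_one_le (by linarith)
    exact Real.one_le_rpow (by linarith) (by positivity)
  have hsHX : √(H : ℝ) ≤ (X : ℝ) ^ (1 / 4 : ℝ) := by
    rw [Real.sqrt_le_left (by positivity), ← Real.rpow_natCast, ← Real.rpow_mul hX0.le]
    have h1 : (H : ℝ) ≤ √(X : ℝ) := Real.le_sqrt_of_sq_le hHXr
    rw [Real.sqrt_eq_rpow] at h1
    refine h1.trans (le_of_eq ?_)
    congr 1
    norm_num
  have hLpow : ∀ k : ℕ, 1 ≤ L ^ k := fun k => one_le_pow₀ hL1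
  have hconv : ∑ n ∈ (Ioc X X').filter (fun n : ℕ => n ≡ r [MOD q]),
      ((ArithmeticFunction.vonMangoldt n : ℝ) : ℂ) * EE s d H c n =
      ∑ n ∈ Ioc X X', ((ArithmeticFunction.vonMangoldt n : ℝ) : ℂ) * Eq s d H c q r n := by
    rw [Finset.sum_filter]
    apply Finset.sum_congr rfl
    intro n _
    unfold Eq
    split_ifs
    · rfl
    · rw [mul_zero]
  rw [hconv]
  have main : ‖∑ n ∈ Ioc X X', ((ArithmeticFunction.vonMangoldt n : ℝ) : ℂ) * Eq s d H c q r n‖ ≤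
      (20 * C₃ + 9 * C₂) * (T * L ^ 6) * ((q : ℝ) ^ 2 * Q) := by
    obtain ⟨hU1, hU4, hU16⟩ := sqrt_sqrt_facts X hX
    obtain ⟨U, hU⟩ : ∃ U, U = Nat.sqrt (Nat.sqrt X) := ⟨_, rfl⟩
    rw [← hU] at hU1 hU4 hU16
    have hUX : U ≤ X := le_trans (Nat.le_self_pow (by norm_num) U) hU4
    have hU3 : U ^ 3 ≤ X := le_trans (Nat.pow_le_pow_right hU1 (by norm_num)) hU4
    have hUr : (U : ℝ) ≤ (X : ℝ) ^ (1 / 4 : ℝ) := by
      have h1 : ((U : ℝ) ^ (4 : ℕ)) ≤ X := by exact_mod_cast hU4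
      calc (U : ℝ) = ((U : ℝ) ^ (4 : ℕ)) ^ (1 / 4 : ℝ) := by
            rw [← Real.rpow_natCast, ← Real.rpow_mul (Nat.cast_nonneg _)]
            norm_num
        _ ≤ _ := Real.rpow_le_rpow (by positivity) h1 (by norm_num)
    have hV := hVAU (Eq s d H c q r) X X' U hX hXX' hX' hU1 hU3
      (fun m => C₂ * (1 + Real.log X) * (2 * (H * √(H : ℝ)) * (X : ℝ) ^ (1 / 4 : ℝ) +
        √(H : ℝ) * (X : ℝ) ^ (1 - lam d / 2) * (1 / m))) T
      (q * (C₃ * (1 + Real.log X) ^ 2 * Q))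
      (by positivity) (fun m => by positivity) hT1
      (by
        intro m hm1 hm2
        have h1 := hD m hm1
        have h2 : (m : ℝ) ≤ 2 * X := by
          have : m ≤ 2 * X := le_trans hm2 hX'
          exact_mod_cast this
        calc (m.divisors.card : ℝ) ≤ C₁ * (m : ℝ) ^ (ε / 2) := h1
          _ ≤ C₁ * (2 * (X : ℝ)) ^ (ε / 2) := by
              gcongr
          _ ≤ T := by
              rw [hTd]
              gcongr
              linarith)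
      (by
        intro m hm b hb
        rw [Finset.mem_Icc] at hm
        exact typeI_q q r m hq H c (Ioc (X / m) b) _ (fun α =>
          typeI_lin hC₂ hT X X' H m b c α hX hX' hH hHX4 hm.1
            (le_trans (Nat.pow_le_pow_left hm.2 4) hU4) hb hc))
      (by
        intro a b ha hb M L' hM hL' hUM hUL hML
        apply typeII_q q r hq X X' H M L' c a b _ ha hb
        intro a' b' ha' hb'
        rw [hQ]
        exact hB X X' U H M L' c a' b' hH hHX hX hXX' hX' hU16 hM hL' hUM hUL hML hc ha' hb')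
    refine hV.trans ?_
    have hsumY : ∑ m ∈ Icc 1 U, C₂ * (1 + Real.log X) * (2 * (H * √(H : ℝ)) * (X : ℝ) ^ (1 / 4 : ℝ) +
        √(H : ℝ) * (X : ℝ) ^ (1 - lam d / 2) * (1 / m)) ≤ 3 * C₂ * L ^ 2 * Q := by
      have hexp : ∑ m ∈ Icc 1 U, C₂ * (1 + Real.log X) * (2 * (H * √(H : ℝ)) * (X : ℝ) ^ (1 / 4 : ℝ) +
          √(H : ℝ) * (X : ℝ) ^ (1 - lam d / 2) * (1 / m)) =
          C₂ * (1 + Real.log X) * ((U : ℝ) * (2 * (H * √(H : ℝ)) * (X : ℝ) ^ (1 / 4 : ℝ)) +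
            √(H : ℝ) * (X : ℝ) ^ (1 - lam d / 2) * ∑ m ∈ Icc 1 U, (1 : ℝ) / m) := by
        rw [← Finset.mul_sum, Finset.sum_add_distrib, Finset.sum_const, Nat.card_Icc,
          nsmul_eq_mul, ← Finset.mul_sum]
        simp
      rw [hexp]
      have h1 := sum_inv_le U X hU1 hUX
      rw [← hL] at h1
      have h3 : (U : ℝ) * (2 * (H * √(H : ℝ)) * (X : ℝ) ^ (1 / 4 : ℝ)) ≤ 2 * Q := by
        calc (U : ℝ) * (2 * (H * √(H : ℝ)) * (X : ℝ) ^ (1 / 4 : ℝ))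
            ≤ (X : ℝ) ^ (1 / 4 : ℝ) * (2 * (H * (X : ℝ) ^ (1 / 4 : ℝ)) * (X : ℝ) ^ (1 / 4 : ℝ)) := by gcongr
          _ = 2 * (H * ((X : ℝ) ^ (1 / 4 : ℝ) * (X : ℝ) ^ (1 / 4 : ℝ) * (X : ℝ) ^ (1 / 4 : ℝ))) := by ring
          _ = 2 * (H * (X : ℝ) ^ (3 / 4 : ℝ)) := by
              rw [← Real.rpow_add hX0, ← Real.rpow_add hX0]
              norm_num
          _ ≤ 2 * Q := by
              rw [hQ]
              have : 0 ≤ √(H : ℝ) * (X : ℝ) ^ (1 - lam d / 2) := by positivity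
              linarith
      have h4 : √(H : ℝ) * (X : ℝ) ^ (1 - lam d / 2) * ∑ m ∈ Icc 1 U, (1 : ℝ) / m ≤ Q * L := by
        have h5 : √(H : ℝ) * (X : ℝ) ^ (1 - lam d / 2) ≤ Q := by
          rw [hQ]
          have : 0 ≤ H * (X : ℝ) ^ (3 / 4 : ℝ) := by positivity
          linarith
        have h6 : 0 ≤ ∑ m ∈ Icc 1 U, (1 : ℝ) / m := Finset.sum_nonneg (fun _ _ => by positivity)
        exact mul_le_mul h5 h1 h6 hQ0
      have h7 : Q ≤ Q * L := by nlinarith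
      calc C₂ * (1 + Real.log X) * ((U : ℝ) * (2 * (H * √(H : ℝ)) * (X : ℝ) ^ (1 / 4 : ℝ)) +
            √(H : ℝ) * (X : ℝ) ^ (1 - lam d / 2) * ∑ m ∈ Icc 1 U, (1 : ℝ) / m)
          ≤ C₂ * L * (2 * (Q * L) + Q * L) := by
            have : 1 + Real.log X ≤ L := by rw [hL]; linarith
            have h8 : (U : ℝ) * (2 * (H * √(H : ℝ)) * (X : ℝ) ^ (1 / 4 : ℝ)) ≤ 2 * (Q * L) := by linarith
            gcongr
        _ = 3 * C₂ * L ^ 2 * Q := by ring
    have hlogL : 1 + Real.log X ≤ L := by rw [hL]; linarith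
    have hq2 : (q : ℝ) ≤ (q : ℝ) ^ 2 := by
      calc (q : ℝ) = q * 1 := (mul_one _).symm
        _ ≤ q * q := by gcongr
        _ = (q : ℝ) ^ 2 := by ring
    have hq3 : (1 : ℝ) ≤ (q : ℝ) ^ 2 := hqr.trans hq2
    calc 20 * (1 + Real.log (4 * X)) ^ 4 * T * (q * (C₃ * (1 + Real.log X) ^ 2 * Q)) +
          3 * (1 + Real.log (4 * X)) * ∑ m ∈ Icc 1 U, C₂ * (1 + Real.log X) *
            (2 * (H * √(H : ℝ)) * (X : ℝ) ^ (1 / 4 : ℝ) + √(H : ℝ) * (X : ℝ) ^ (1 - lam d / 2) * (1 / m))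
        ≤ 20 * L ^ 4 * T * ((q : ℝ) ^ 2 * (C₃ * L ^ 2 * Q)) + 3 * L * (3 * C₂ * L ^ 2 * Q) := by
          rw [← hL]
          gcongr
      _ = 20 * C₃ * (T * L ^ 6) * ((q : ℝ) ^ 2 * Q) + 9 * C₂ * (L ^ 3) * (1 * Q) := by ring
      _ ≤ 20 * C₃ * (T * L ^ 6) * ((q : ℝ) ^ 2 * Q) + 9 * C₂ * (T * L ^ 6) * ((q : ℝ) ^ 2 * Q) := by
          have h7 : L ^ 3 ≤ T * L ^ 6 := by
            calc L ^ 3 ≤ L ^ 6 := pow_le_pow_right₀ hL1 (by norm_num)
              _ = 1 * L ^ 6 := (one_mul _).symm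
              _ ≤ T * L ^ 6 := by gcongr
          gcongr
      _ = (20 * C₃ + 9 * C₂) * (T * L ^ 6) * ((q : ℝ) ^ 2 * Q) := by ring
  have habs := log_absorb6 ε C₁ hε hC₁ X hX
  rw [← hTd, ← hL] at habs
  rw [← hQ]
  calc ‖∑ n ∈ Ioc X X', ((ArithmeticFunction.vonMangoldt n : ℝ) : ℂ) * Eq s d H c q r n‖
      ≤ (20 * C₃ + 9 * C₂) * (T * L ^ 6) * ((q : ℝ) ^ 2 * Q) := main
    _ ≤ (20 * C₃ + 9 * C₂) * ((C₁ + 1) * (1 + 12 / ε) ^ 6 * (4 : ℝ) ^ ε * (X : ℝ) ^ ε) * ((q : ℝ) ^ 2 * Q) := by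
        gcongr
    _ = (20 * C₃ + 9 * C₂) * ((C₁ + 1) * (1 + 12 / ε) ^ 6 * (4 : ℝ) ^ ε) * (q : ℝ) ^ 2 * (X : ℝ) ^ ε * Q := by
        ring

end Run7.h834.MC
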